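import Mathlib

set_option autoImplicit false

namespace Pool.Agent.Results.MP_6ae079_co.RationalInscribed

/-- Four-dimensional Euclidean space. -/
abbrev E := EuclideanSpace ℝ (Fin 4)

/-- A polytope: the convex hull of a finite set of points. -/
def IsPolytope (P : Set E) : Prop := ∃ s : Set E, s.Finite ∧ P = convexHull ℝ s

/-- The face lattice of a polytope `P`: all sets exposed by a linear functional (`P` itself is one
of them), together with the empty set, ordered by inclusion. -/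
abbrev FaceLattice (P : Set E) := {F : Set E // IsExposed ℝ P F}

/-- The point with parameter `x` on the moment curve. -/
noncomputable def moment (x : ℝ) : E := !₂[x, x ^ 2, x ^ 3, x ^ 4]

/-- The cyclic polytope `C_4(7)` with parameters `t_1, ..., t_7`. -/
noncomputable def cyclicPolytope (t : Fin 7 → ℝ) : Set E :=
  convexHull ℝ (Set.range fun i => moment (t i))

/-! ### Faces of the convex hull of a finite family -/

section General

variable {ι : Type}

/-- Index sets of faces of the convex hull of a finite family of points. -/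
def FaceSet (p : ι → E) (Z : Set ι) : Prop :=
  Z.Nonempty → ∃ l : StrongDual ℝ E, Z = {i | ∀ j, l (p j) ≤ l (p i)}

theorem mem_hull (p : ι → E) (i : ι) : p i ∈ convexHull ℝ (Set.range p) :=
  subset_convexHull ℝ _ ⟨i, rfl⟩

theorem le_of_hull (p : ι → E) (l : StrongDual ℝ E) (M : ℝ) (h : ∀ j, l (p j) ≤ M) :
    ∀ y ∈ convexHull ℝ (Set.range p), l y ≤ M := by
  intro y hy
  have hconv : Convex ℝ {y : E | l y ≤ M} := convex_halfSpace_le l.toLinearMap.isLinear M
  have hsub : Set.range p ⊆ {y : E | l y ≤ M} := by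
    rintro _ ⟨j, rfl⟩
    exact h j
  exact convexHull_min hsub hconv hy

theorem face_hull (p : ι → E) (F : Set E) (hF : IsExposed ℝ (convexHull ℝ (Set.range p)) F) :
    F = convexHull ℝ (p '' {i | p i ∈ F}) := by
  rcases F.eq_empty_or_nonempty with rfl | hne
  · simp
  obtain ⟨l, hl⟩ := hF hne
  apply Set.Subset.antisymm
  · intro x hx
    have hx' := hx
    rw [hl] at hx'
    obtain ⟨hxP, hxmax⟩ := hx'
    obtain ⟨κ, _, w, z, hw0, hw1, hz, hwz⟩ := mem_convexHull_iff_exists_fintype.mp hxP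
    have hzle : ∀ j, l (z j) ≤ l x := fun j => hxmax _ (subset_convexHull ℝ _ (hz j))
    have hsum : ∑ j, w j * (l x - l (z j)) = 0 := by
      have h1 : l x = ∑ j, w j * l (z j) := by
        rw [← hwz, map_sum]
        simp
      simp only [mul_sub, Finset.sum_sub_distrib]
      rw [← Finset.sum_mul, hw1, one_mul, ← h1, sub_self]
    have hterm := (Finset.sum_eq_zero_iff_of_nonneg (fun j _ =>
      mul_nonneg (hw0 j) (sub_nonneg.mpr (hzle j)))).mp hsum
    classical
    have hx2 : x = ∑ j ∈ Finset.univ.filter (fun j => w j ≠ 0), w j • z j := by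
      rw [← hwz, Finset.sum_filter]
      apply Finset.sum_congr rfl
      intro j _
      by_cases hj : w j = 0
      · simp [hj]
      · simp [hj]
    have hw2 : ∑ j ∈ Finset.univ.filter (fun j => w j ≠ 0), w j = 1 := by
      rw [← hw1, Finset.sum_filter]
      apply Finset.sum_congr rfl
      intro j _
      by_cases hj : w j = 0
      · simp [hj]
      · simp [hj]
    rw [hx2]
    apply (convex_convexHull ℝ _).sum_mem (fun j _ => hw0 j) hw2
    intro j hj
    rw [Finset.mem_filter] at hj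
    apply subset_convexHull ℝ
    obtain ⟨i, hi⟩ := hz j
    refine ⟨i, ?_, hi⟩
    change p i ∈ F
    rw [hi, hl]
    refine ⟨subset_convexHull ℝ _ (hz j), ?_⟩
    have h0 := hterm j (Finset.mem_univ j)
    have h1 : l x - l (z j) = 0 := by
      rcases mul_eq_zero.mp h0 with h | h
      · exact absurd h hj.2
      · exact h
    intro y hy
    have := hxmax y hy
    linarith
  · apply convexHull_min
    · rintro _ ⟨i, hi, rfl⟩
      exact hi
    · rw [hl]
      intro x hx y hy a b ha hb hab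
      refine ⟨(convex_convexHull ℝ _) hx.1 hy.1 ha hb hab, ?_⟩
      intro u hu
      rw [map_add, map_smul, map_smul, smul_eq_mul, smul_eq_mul]
      have h1 := hx.2 u hu
      have h2 := hy.2 u hu
      calc l u = a * l u + b * l u := by rw [← add_mul, hab, one_mul]
        _ ≤ a * l x + b * l y := add_le_add (mul_le_mul_of_nonneg_left h1 ha)
            (mul_le_mul_of_nonneg_left h2 hb)

theorem faceSet_of_face (p : ι → E) (F : Set E)
    (hF : IsExposed ℝ (convexHull ℝ (Set.range p)) F) : FaceSet p {i | p i ∈ F} := by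
  rintro ⟨i0, hi0⟩
  obtain ⟨l, hl⟩ := hF ⟨p i0, hi0⟩
  refine ⟨l, ?_⟩
  ext i
  change p i ∈ F ↔ ∀ j, l (p j) ≤ l (p i)
  rw [hl]
  constructor
  · intro h j
    exact h.2 _ (mem_hull p j)
  · intro h
    exact ⟨mem_hull p i, le_of_hull p l _ h⟩

/-- The face lattice of the convex hull of a finite family is the poset of its index sets. -/
noncomputable def faceIso (p : ι → E) :
    FaceLattice (convexHull ℝ (Set.range p)) ≃o {Z : Set ι // FaceSet p Z} :=
  OrderIso.ofSurjective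
    (OrderEmbedding.ofMapLEIff
      (fun F => (⟨{i | p i ∈ F.1}, faceSet_of_face p F.1 F.2⟩ : {Z : Set ι // FaceSet p Z}))
      (by
        rintro ⟨F, hF⟩ ⟨F', hF'⟩
        constructor
        · intro h
          change F ⊆ F'
          rw [face_hull p F hF, face_hull p F' hF']
          apply convexHull_mono
          apply Set.image_mono
          exact h
        · intro h i hi
          exact h hi))
    (by
      rintro ⟨Z, hZ⟩
      rcases Z.eq_empty_or_nonempty with rfl | hne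
      · refine ⟨⟨∅, fun h => absurd h (by simp)⟩, ?_⟩
        apply Subtype.ext
        ext i
        simp
      · obtain ⟨l, hl⟩ := hZ hne
        refine ⟨⟨{x ∈ convexHull ℝ (Set.range p) | ∀ y ∈ convexHull ℝ (Set.range p), l y ≤ l x},
          fun _ => ⟨l, rfl⟩⟩, ?_⟩
        apply Subtype.ext
        change {i | p i ∈ {x ∈ convexHull ℝ (Set.range p) |
          ∀ y ∈ convexHull ℝ (Set.range p), l y ≤ l x}} = Z
        rw [hl]
        ext i
        constructor
        · intro h j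
          exact h.2 _ (mem_hull p j)
        · intro h
          exact ⟨mem_hull p i, le_of_hull p l _ h⟩)

end General

/-! ### Data -/

/-- The four facets through vertex `v`. -/
def idx (v : Fin 14) : Fin 4 → Fin 7 :=
  (![![0, 1, 2, 3],
    ![0, 1, 3, 4],
    ![0, 1, 4, 5],
    ![0, 1, 5, 6],
    ![1, 2, 3, 4],
    ![1, 2, 4, 5],
    ![1, 2, 5, 6],
    ![0, 1, 2, 6],
    ![2, 3, 4, 5],
    ![2, 3, 5, 6],
    ![0, 2, 3, 6],
    ![3, 4, 5, 6],
    ![0, 3, 4, 6],
    ![0, 4, 5, 6]] : Fin 14 → Fin 4 → Fin 7) v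

/-- The neighbours of vertex `v`. -/
def nb (v : Fin 14) : Fin 4 → Fin 14 :=
  (![![4, 10, 1, 7],
    ![4, 12, 2, 0],
    ![5, 13, 3, 1],
    ![6, 13, 7, 2],
    ![8, 1, 5, 0],
    ![8, 2, 6, 4],
    ![9, 3, 7, 5],
    ![6, 10, 3, 0],
    ![11, 5, 9, 4],
    ![11, 6, 10, 8],
    ![9, 12, 7, 0],
    ![13, 9, 12, 8],
    ![11, 13, 10, 1],
    ![11, 3, 12, 2]] : Fin 14 → Fin 4 → Fin 14) v

/-- The fourteen vertices. -/
def pt (v : Fin 14) : Fin 4 → ℤ :=
  (![![0, 0, 0, 24570],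
    ![0, 0, -14742, 19656],
    ![0, 15210, 18720, -4680],
    ![0, 10530, 21060, 7020],
    ![9828, 4914, -9828, 19656],
    ![16380, 13650, 5460, 10920],
    ![7560, 9450, 15120, 15120],
    ![0, 2730, 10920, 21840],
    ![20020, -910, 9100, 10920],
    ![17199, -2457, 12285, 12285],
    ![1260, -3150, 8820, 22680],
    ![17550, -7020, 14040, 7020],
    ![7020, -17550, 15444, 2808],
    ![4680, -3510, 23400, -4680]] : Fin 14 → Fin 4 → ℤ) v

/-- The seven facet normals. -/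
def nrm (k : Fin 7) : Fin 4 → ℤ :=
  (![![29, 7, -1, 3],
    ![3, -7, 1, -3],
    ![-3, -1, -1, -5],
    ![-7, 11, 3, -9],
    ![-5, 1, 9, 13],
    ![-65, -35, -75, 1],
    ![-7, 11, -45, -25]] : Fin 7 → Fin 4 → ℤ) k

/-- The seven facet constants. -/
def cst (k : Fin 7) : ℤ :=
  (![-73710, 73710, 122850, 221130, -122850, 1941030, 1007370] : Fin 7 → ℤ) k

/-- The sign of a facet. -/
def eps (v : Fin 14) : ℤ :=
  (![1, 1, 1, 1, 1, 1, 1, -1, 1, 1, -1, 1, -1, -1] : Fin 14 → ℤ) v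

/-! ### The explicit polytope -/

section Explicit

/-- The set of facets through vertex `v`. -/
def fac (v : Fin 14) : Finset (Fin 7) := {idx v 0, idx v 1, idx v 2, idx v 3}

/-- Value of the facet function `k` at the vertex `v`. -/
def val (k : Fin 7) (v : Fin 14) : ℤ :=
  nrm k 0 * pt v 0 + nrm k 1 * pt v 1 + nrm k 2 * pt v 2 + nrm k 3 * pt v 3 + cst k

theorem val_nonneg : ∀ k v, 0 ≤ val k v := by
  decide +kernel

theorem val_eq_zero : ∀ k v, val k v = 0 ↔ k ∈ fac v := by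
  decide +kernel

theorem val_nb_pos : ∀ v j, 0 < val (idx v j) (nb v j) := by
  decide +kernel

theorem norm_check : ∀ v, pt v 0 ^ 2 + pt v 1 ^ 2 + pt v 2 ^ 2 + pt v 3 ^ 2 = 24570 ^ 2 := by
  decide +kernel

/-- The four positive numbers `val (idx v j) (nb v j)`. -/
def dd (v : Fin 14) (j : Fin 4) : ℤ := val (idx v j) (nb v j)

theorem cone_check : ∀ v w : Fin 14, ∀ i : Fin 4,
    dd v 0 * dd v 1 * dd v 2 * dd v 3 * (pt w i - pt v i)
      = val (idx v 0) w * (dd v 1 * dd v 2 * dd v 3) * (pt (nb v 0) i - pt v i)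
      + val (idx v 1) w * (dd v 0 * dd v 2 * dd v 3) * (pt (nb v 1) i - pt v i)
      + val (idx v 2) w * (dd v 0 * dd v 1 * dd v 3) * (pt (nb v 2) i - pt v i)
      + val (idx v 3) w * (dd v 0 * dd v 1 * dd v 2) * (pt (nb v 3) i - pt v i) := by
  decide +kernel

/-- The vertices as points of Euclidean space. -/
noncomputable def Q (v : Fin 14) : E := WithLp.toLp 2 (fun i => (pt v i : ℝ))

theorem Q_apply (v : Fin 14) (i : Fin 4) : Q v i = (pt v i : ℝ) := rfl

theorem cone_vec (v w : Fin 14) :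
    ((dd v 0 * dd v 1 * dd v 2 * dd v 3 : ℤ) : ℝ) • (Q w - Q v)
      = ((val (idx v 0) w * (dd v 1 * dd v 2 * dd v 3) : ℤ) : ℝ) • (Q (nb v 0) - Q v)
      + ((val (idx v 1) w * (dd v 0 * dd v 2 * dd v 3) : ℤ) : ℝ) • (Q (nb v 1) - Q v)
      + ((val (idx v 2) w * (dd v 0 * dd v 1 * dd v 3) : ℤ) : ℝ) • (Q (nb v 2) - Q v)
      + ((val (idx v 3) w * (dd v 0 * dd v 1 * dd v 2) : ℤ) : ℝ) • (Q (nb v 3) - Q v) := by
  ext i
  have h := cone_check v w i
  simp only [PiLp.add_apply, PiLp.smul_apply, PiLp.sub_apply, Q_apply, smul_eq_mul]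
  exact_mod_cast h

/-- The combinatorial faces of the cyclic polytope: the whole set and the subsets of facets. -/
def Good (Z : Finset (Fin 7)) : Prop := Z = Finset.univ ∨ ∃ v, Z ⊆ fac v

instance (Z : Finset (Fin 7)) : Decidable (Good Z) := by
  unfold Good
  infer_instance

/-- The set of vertices of the dual polytope corresponding to `Z`. -/
def star (Z : Finset (Fin 7)) : Set (Fin 14) := {v | Z ⊆ fac v}

theorem sep_check : ∀ Z : Finset (Fin 7), (∃ v, Z ⊆ fac v) → ∀ x, x ∉ Z →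
    ∃ v, Z ⊆ fac v ∧ x ∉ fac v := by
  decide +kernel

theorem univ_check : ∀ v, ¬ (Finset.univ ⊆ fac v) := by
  decide +kernel

theorem star_le (Z Z' : Finset (Fin 7)) (hZ : Good Z) : star Z ⊆ star Z' ↔ Z' ⊆ Z := by
  constructor
  · intro h x hx
    rcases hZ with rfl | hZ
    · exact Finset.mem_univ x
    · by_contra hcon
      obtain ⟨v, hv1, hv2⟩ := sep_check Z hZ x hcon
      exact hv2 (h hv1 hx)
  · intro h v hv
    exact Finset.Subset.trans h hv

/-- A linear functional given by its coefficients. -/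
noncomputable def lin (c : Fin 4 → ℝ) : StrongDual ℝ E :=
  ∑ i, c i • EuclideanSpace.proj i

theorem lin_apply (c : Fin 4 → ℝ) (x : E) :
    lin c x = c 0 * x 0 + c 1 * x 1 + c 2 * x 2 + c 3 * x 3 := by
  unfold lin
  simp [Fin.sum_univ_four]

theorem val_real (k : Fin 7) (v : Fin 14) :
    (val k v : ℝ) = lin (fun i => (nrm k i : ℝ)) (Q v) + (cst k : ℝ) := by
  rw [lin_apply]
  simp only [Q_apply, val]
  push_cast
  ring

theorem star_faceSet (Z : Finset (Fin 7)) (hZ : Good Z) : FaceSet Q (star Z) := by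
  rcases hZ with rfl | ⟨v0, hv0⟩
  · rintro ⟨v, hv⟩
    exact absurd hv (univ_check v)
  · intro _
    refine ⟨-∑ k ∈ Z, lin (fun i => (nrm k i : ℝ)), ?_⟩
    have hL : ∀ v, (-∑ k ∈ Z, lin (fun i => (nrm k i : ℝ))) (Q v)
        = (∑ k ∈ Z, (cst k : ℝ)) - ∑ k ∈ Z, (val k v : ℝ) := by
      intro v
      simp only [val_real, Finset.sum_add_distrib]
      rw [neg_apply, sum_apply]
      ring
    ext v
    change Z ⊆ fac v ↔ ∀ j, _ ≤ _
    simp only [hL]
    have hnn : ∀ v, 0 ≤ ∑ k ∈ Z, (val k v : ℝ) := by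
      intro v
      apply Finset.sum_nonneg
      intro k _
      exact_mod_cast val_nonneg k v
    have hz : ∀ v, Z ⊆ fac v → ∑ k ∈ Z, (val k v : ℝ) = 0 := by
      intro v hv
      apply Finset.sum_eq_zero
      intro k hk
      exact_mod_cast (val_eq_zero k v).mpr (hv hk)
    constructor
    · intro h j
      rw [hz v h]
      have := hnn j
      linarith
    · intro h
      have h1 := h v0
      rw [hz v0 hv0] at h1
      have h2 : ∑ k ∈ Z, (val k v : ℝ) = 0 := le_antisymm (by linarith) (hnn v)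
      intro k hk
      have h3 := (Finset.sum_eq_zero_iff_of_nonneg (fun k _ => by
        exact_mod_cast val_nonneg k v)).mp h2 k hk
      exact (val_eq_zero k v).mp (by exact_mod_cast h3)

theorem mem_fac (v : Fin 14) (k : Fin 7) : k ∈ fac v ↔ ∃ j, k = idx v j := by
  revert v k
  decide +kernel

theorem faceSet_star (W : Set (Fin 14)) (hW : FaceSet Q W) : ∃ Z, Good Z ∧ star Z = W := by
  classical
  rcases W.eq_empty_or_nonempty with rfl | hne
  · refine ⟨Finset.univ, Or.inl rfl, ?_⟩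
    ext v
    simp only [Set.mem_empty_iff_false, iff_false]
    exact univ_check v
  · obtain ⟨l, hl⟩ := hW hne
    obtain ⟨v, hv⟩ := hne
    have hvmax : ∀ j, l (Q j) ≤ l (Q v) := by
      rw [hl] at hv
      exact hv
    -- the gaps to the neighbours
    let δ : Fin 4 → ℝ := fun j => l (Q v) - l (Q (nb v j))
    have hδ : ∀ j, 0 ≤ δ j := fun j => sub_nonneg.mpr (hvmax _)
    have key : ∀ w, ((dd v 0 * dd v 1 * dd v 2 * dd v 3 : ℤ) : ℝ) * (l (Q v) - l (Q w))
        = ((val (idx v 0) w * (dd v 1 * dd v 2 * dd v 3) : ℤ) : ℝ) * δ 0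
        + ((val (idx v 1) w * (dd v 0 * dd v 2 * dd v 3) : ℤ) : ℝ) * δ 1
        + ((val (idx v 2) w * (dd v 0 * dd v 1 * dd v 3) : ℤ) : ℝ) * δ 2
        + ((val (idx v 3) w * (dd v 0 * dd v 1 * dd v 2) : ℤ) : ℝ) * δ 3 := by
      intro w
      have h := congrArg l (cone_vec v w)
      simp only [map_add, map_smul, map_sub, smul_eq_mul] at h
      simp only [δ]
      linear_combination -h
    have d0 : (0 : ℤ) < dd v 0 := val_nb_pos v 0
    have d1 : (0 : ℤ) < dd v 1 := val_nb_pos v 1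
    have d2 : (0 : ℤ) < dd v 2 := val_nb_pos v 2
    have d3 : (0 : ℤ) < dd v 3 := val_nb_pos v 3
    have D : (0 : ℝ) < ((dd v 0 * dd v 1 * dd v 2 * dd v 3 : ℤ) : ℝ) := by
      exact_mod_cast (by positivity : (0 : ℤ) < dd v 0 * dd v 1 * dd v 2 * dd v 3)
    have e0 : (0 : ℤ) < dd v 1 * dd v 2 * dd v 3 := by positivity
    have e1 : (0 : ℤ) < dd v 0 * dd v 2 * dd v 3 := by positivity
    have e2 : (0 : ℤ) < dd v 0 * dd v 1 * dd v 3 := by positivity
    have e3 : (0 : ℤ) < dd v 0 * dd v 1 * dd v 2 := by positivity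
    refine ⟨(Finset.univ.filter (fun j => δ j ≠ 0)).image (idx v), Or.inr ⟨v, ?_⟩, ?_⟩
    · intro k hk
      rw [Finset.mem_image] at hk
      obtain ⟨j, _, rfl⟩ := hk
      exact (mem_fac v _).mpr ⟨j, rfl⟩
    · ext w
      have hmem : w ∈ star ((Finset.univ.filter (fun j => δ j ≠ 0)).image (idx v)) ↔
          ∀ j, δ j ≠ 0 → val (idx v j) w = 0 := by
        constructor
        · intro h j hj
          rw [val_eq_zero]
          apply h
          rw [Finset.mem_image]
          exact ⟨j, by rw [Finset.mem_filter]; exact ⟨Finset.mem_univ _, hj⟩, rfl⟩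
        · intro h k hk
          rw [Finset.mem_image] at hk
          obtain ⟨j, hj, rfl⟩ := hk
          rw [Finset.mem_filter] at hj
          exact (val_eq_zero _ _).mp (h j hj.2)
      rw [hmem, hl]
      have hterm : ∀ (j : Fin 4) (e : ℤ), 0 < e → 0 ≤ ((val (idx v j) w * e : ℤ) : ℝ) * δ j := by
        intro j e he
        apply mul_nonneg _ (hδ j)
        exact_mod_cast mul_nonneg (val_nonneg _ _) he.le
      have hzero : ∀ (j : Fin 4) (e : ℤ), 0 < e → ((val (idx v j) w * e : ℤ) : ℝ) * δ j = 0 →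
          δ j ≠ 0 → val (idx v j) w = 0 := by
        intro j e he h0 hj
        rcases mul_eq_zero.mp h0 with h | h
        · have h' : val (idx v j) w * e = 0 := by exact_mod_cast h
          rcases mul_eq_zero.mp h' with h'' | h''
          · exact h''
          · exact absurd h'' he.ne'
        · exact absurd h hj
      have hzero' : ∀ (j : Fin 4) (e : ℤ), (δ j ≠ 0 → val (idx v j) w = 0) →
          ((val (idx v j) w * e : ℤ) : ℝ) * δ j = 0 := by
        intro j e h
        by_cases hj : δ j = 0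
        · rw [hj, mul_zero]
        · rw [h hj]
          simp
      have kw := key w
      have t0 := hterm 0 _ e0
      have t1 := hterm 1 _ e1
      have t2 := hterm 2 _ e2
      have t3 := hterm 3 _ e3
      constructor
      · intro h j
        rw [hzero' 0 _ (h 0), hzero' 1 _ (h 1), hzero' 2 _ (h 2), hzero' 3 _ (h 3)] at kw
        have h5 : l (Q v) - l (Q w) = 0 := by
          rcases mul_eq_zero.mp (by linarith :
            ((dd v 0 * dd v 1 * dd v 2 * dd v 3 : ℤ) : ℝ) * (l (Q v) - l (Q w)) = 0) with h | h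
          · exact absurd h D.ne'
          · exact h
        have := hvmax j
        linarith
      · intro h
        have h6 : l (Q w) = l (Q v) := le_antisymm (hvmax w) (h v)
        rw [h6, sub_self, mul_zero] at kw
        intro j
        fin_cases j
        · exact hzero 0 _ e0 (by linarith)
        · exact hzero 1 _ e1 (by linarith)
        · exact hzero 2 _ e2 (by linarith)
        · exact hzero 3 _ e3 (by linarith)

end Explicit

/-! ### The cyclic polytope -/

section Cyclic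

theorem lin_moment (c : Fin 4 → ℝ) (x : ℝ) :
    lin c (moment x) = c 0 * x + c 1 * x ^ 2 + c 2 * x ^ 3 + c 3 * x ^ 4 := by
  rw [lin_apply]
  simp [moment]

/-- Every functional is given by coefficients. -/
theorem exists_coeff (l : StrongDual ℝ E) : ∃ c : Fin 4 → ℝ, l = lin c := by
  refine ⟨fun i => l (EuclideanSpace.single i 1), ?_⟩
  ext x
  rw [lin_apply]
  have hx : x = ∑ i, x i • EuclideanSpace.single i (1 : ℝ) := by
    ext j
    simp [Fin.sum_univ_four]
    fin_cases j <;> simp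
  conv_lhs => rw [hx]
  rw [map_sum]
  simp only [map_smul, smul_eq_mul, Fin.sum_univ_four]
  ring

/-- A quartic with three distinct zeros factors. -/
theorem quartic_factor (m c0 c1 c2 c3 r1 r2 r3 : ℝ) (h12 : r1 ≠ r2) (h13 : r1 ≠ r3) (h23 : r2 ≠ r3)
    (e1 : m - (c0 * r1 + c1 * r1 ^ 2 + c2 * r1 ^ 3 + c3 * r1 ^ 4) = 0)
    (e2 : m - (c0 * r2 + c1 * r2 ^ 2 + c2 * r2 ^ 3 + c3 * r2 ^ 4) = 0)
    (e3 : m - (c0 * r3 + c1 * r3 ^ 2 + c2 * r3 ^ 3 + c3 * r3 ^ 4) = 0) (x : ℝ) :
    m - (c0 * x + c1 * x ^ 2 + c2 * x ^ 3 + c3 * x ^ 4)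
      = (x - r1) * (x - r2) * (x - r3) * (-c3 * x + (-c2 - c3 * (r1 + r2 + r3))) := by
  have hV : (r1 - r2) * (r1 - r3) * (r2 - r3) ≠ 0 :=
    mul_ne_zero (mul_ne_zero (sub_ne_zero.mpr h12) (sub_ne_zero.mpr h13)) (sub_ne_zero.mpr h23)
  apply mul_left_cancel₀ hV
  linear_combination (x - r2) * (x - r3) * (r2 - r3) * e1 - (x - r1) * (x - r3) * (r1 - r3) * e2
    + (x - r1) * (x - r2) * (r1 - r2) * e3

/-- A linear function that is nonnegative, nonpositive, nonnegative at three increasing points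
vanishes. -/
theorem linear_zero (α β s1 s2 s3 : ℝ) (h12 : s1 < s2) (h23 : s2 < s3) (e1 : 0 ≤ α * s1 + β)
    (e2 : α * s2 + β ≤ 0) (e3 : 0 ≤ α * s3 + β) : ∀ x, α * x + β = 0 := by
  have hα : α = 0 := by
    rcases lt_trichotomy α 0 with h | h | h
    · nlinarith
    · exact h
    · nlinarith
  subst hα
  intro x
  linarith

theorem pos_of_mul_pos_left' (a b : ℝ) (ha : 0 < a) (h : 0 ≤ a * b) : 0 ≤ b := by
  by_contra hb
  push Not at hb
  nlinarith

theorem alt_pos (m c0 c1 c2 c3 r1 r2 r3 s1 s2 s3 : ℝ) (h1 : r1 < s1) (h2 : s1 < r2) (h3 : r2 < s2)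
    (h4 : s2 < r3) (h5 : r3 < s3)
    (e1 : m - (c0 * r1 + c1 * r1 ^ 2 + c2 * r1 ^ 3 + c3 * r1 ^ 4) = 0)
    (e2 : m - (c0 * r2 + c1 * r2 ^ 2 + c2 * r2 ^ 3 + c3 * r2 ^ 4) = 0)
    (e3 : m - (c0 * r3 + c1 * r3 ^ 2 + c2 * r3 ^ 3 + c3 * r3 ^ 4) = 0)
    (f1 : 0 ≤ m - (c0 * s1 + c1 * s1 ^ 2 + c2 * s1 ^ 3 + c3 * s1 ^ 4))
    (f2 : 0 ≤ m - (c0 * s2 + c1 * s2 ^ 2 + c2 * s2 ^ 3 + c3 * s2 ^ 4))
    (f3 : 0 ≤ m - (c0 * s3 + c1 * s3 ^ 2 + c2 * s3 ^ 3 + c3 * s3 ^ 4)) (x : ℝ) :
    m - (c0 * x + c1 * x ^ 2 + c2 * x ^ 3 + c3 * x ^ 4) = 0 := by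
  have hF := quartic_factor m c0 c1 c2 c3 r1 r2 r3 (by linarith [h1, h2] : r1 < r2).ne
    (by linarith : r1 < r3).ne (by linarith : r2 < r3).ne e1 e2 e3
  rw [hF] at f1 f2 f3 ⊢
  have p1 : 0 < (s1 - r1) * (s1 - r2) * (s1 - r3) := by
    have : (s1 - r1) * (s1 - r2) * (s1 - r3) = (s1 - r1) * ((r2 - s1) * (r3 - s1)) := by ring
    rw [this]
    exact mul_pos (by linarith) (mul_pos (by linarith) (by linarith))
  have p2 : 0 < (s2 - r1) * (s2 - r2) * (r3 - s2) :=
    mul_pos (mul_pos (by linarith) (by linarith)) (by linarith)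
  have p3 : 0 < (s3 - r1) * (s3 - r2) * (s3 - r3) :=
    mul_pos (mul_pos (by linarith) (by linarith)) (by linarith)
  have g1 := pos_of_mul_pos_left' _ _ p1 f1
  have g3 := pos_of_mul_pos_left' _ _ p3 f3
  have g2 : 0 ≤ -(-c3 * s2 + (-c2 - c3 * (r1 + r2 + r3))) := by
    apply pos_of_mul_pos_left' _ _ p2
    calc 0 ≤ _ := f2
      _ = _ := by ring
  have := linear_zero (-c3) (-c2 - c3 * (r1 + r2 + r3)) s1 s2 s3 (by linarith) (by linarith) g1
    (by linarith) g3 x
  rw [this, mul_zero]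

theorem alt_neg (m c0 c1 c2 c3 r1 r2 r3 s1 s2 s3 : ℝ) (h1 : s1 < r1) (h2 : r1 < s2) (h3 : s2 < r2)
    (h4 : r2 < s3) (h5 : s3 < r3)
    (e1 : m - (c0 * r1 + c1 * r1 ^ 2 + c2 * r1 ^ 3 + c3 * r1 ^ 4) = 0)
    (e2 : m - (c0 * r2 + c1 * r2 ^ 2 + c2 * r2 ^ 3 + c3 * r2 ^ 4) = 0)
    (e3 : m - (c0 * r3 + c1 * r3 ^ 2 + c2 * r3 ^ 3 + c3 * r3 ^ 4) = 0)
    (f1 : 0 ≤ m - (c0 * s1 + c1 * s1 ^ 2 + c2 * s1 ^ 3 + c3 * s1 ^ 4))
    (f2 : 0 ≤ m - (c0 * s2 + c1 * s2 ^ 2 + c2 * s2 ^ 3 + c3 * s2 ^ 4))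
    (f3 : 0 ≤ m - (c0 * s3 + c1 * s3 ^ 2 + c2 * s3 ^ 3 + c3 * s3 ^ 4)) (x : ℝ) :
    m - (c0 * x + c1 * x ^ 2 + c2 * x ^ 3 + c3 * x ^ 4) = 0 := by
  have hF := quartic_factor m c0 c1 c2 c3 r1 r2 r3 (by linarith [h1, h2] : r1 < r2).ne
    (by linarith : r1 < r3).ne (by linarith : r2 < r3).ne e1 e2 e3
  rw [hF] at f1 f2 f3 ⊢
  have p1 : 0 < (r1 - s1) * (r2 - s1) * (r3 - s1) :=
    mul_pos (mul_pos (by linarith) (by linarith)) (by linarith)
  have p2 : 0 < (s2 - r1) * (s2 - r2) * (s2 - r3) := by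
    have : (s2 - r1) * (s2 - r2) * (s2 - r3) = (s2 - r1) * ((r2 - s2) * (r3 - s2)) := by ring
    rw [this]
    exact mul_pos (by linarith) (mul_pos (by linarith) (by linarith))
  have p3 : 0 < (s3 - r1) * (s3 - r2) * (r3 - s3) :=
    mul_pos (mul_pos (by linarith) (by linarith)) (by linarith)
  have g1 : 0 ≤ -(-c3 * s1 + (-c2 - c3 * (r1 + r2 + r3))) := by
    apply pos_of_mul_pos_left' _ _ p1
    calc 0 ≤ _ := f1
      _ = _ := by ring
  have g2 := pos_of_mul_pos_left' _ _ p2 f2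
  have g3 : 0 ≤ -(-c3 * s3 + (-c2 - c3 * (r1 + r2 + r3))) := by
    apply pos_of_mul_pos_left' _ _ p3
    calc 0 ≤ _ := f3
      _ = _ := by ring
  have h := linear_zero (c3) (-(-c2 - c3 * (r1 + r2 + r3))) s1 s2 s3 (by linarith) (by linarith)
    (by linarith) (by linarith) (by linarith) x
  have h' : -c3 * x + (-c2 - c3 * (r1 + r2 + r3)) = 0 := by linarith
  rw [h', mul_zero]

theorem triple_check : ∀ Z : Finset (Fin 7), ¬ (∃ v, Z ⊆ fac v) →
    (0 ∈ Z ∧ 2 ∈ Z ∧ 4 ∈ Z) ∨ (0 ∈ Z ∧ 2 ∈ Z ∧ 5 ∈ Z) ∨ (0 ∈ Z ∧ 3 ∈ Z ∧ 5 ∈ Z) ∨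
    (1 ∈ Z ∧ 3 ∈ Z ∧ 5 ∈ Z) ∨ (1 ∈ Z ∧ 3 ∈ Z ∧ 6 ∈ Z) ∨ (1 ∈ Z ∧ 4 ∈ Z ∧ 6 ∈ Z) ∨
    (2 ∈ Z ∧ 4 ∈ Z ∧ 6 ∈ Z) := by
  decide +kernel

theorem cyc_good (t : Fin 7 → ℝ) (ht : StrictMono t) (Z : Finset (Fin 7))
    (hZ : FaceSet (fun i => moment (t i)) (Z : Set (Fin 7))) : Good Z := by
  by_cases hex : ∃ v, Z ⊆ fac v
  · exact Or.inr hex
  · left
    have htri := triple_check Z hex
    have hne : (Z : Set (Fin 7)).Nonempty := by
      rcases htri with h | h | h | h | h | h | h <;> exact ⟨_, h.1⟩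
    obtain ⟨l, hl⟩ := hZ hne
    obtain ⟨c, rfl⟩ := exists_coeff l
    obtain ⟨i0, hi0⟩ := hne
    have hmem : ∀ i, i ∈ Z ↔ ∀ j, lin c (moment (t j)) ≤ lin c (moment (t i)) := by
      intro i
      rw [← Finset.mem_coe, hl]
      rfl
    simp only [lin_moment] at hmem
    have hi0' := (hmem i0).mp hi0
    generalize hm : c 0 * t i0 + c 1 * t i0 ^ 2 + c 2 * t i0 ^ 3 + c 3 * t i0 ^ 4 = m at hi0'
    have hz : ∀ i, i ∈ Z ↔
        m - (c 0 * t i + c 1 * t i ^ 2 + c 2 * t i ^ 3 + c 3 * t i ^ 4) = 0 := by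
      intro i
      constructor
      · intro h
        have h1 := (hmem i).mp h i0
        have h2 := hi0' i
        linarith
      · intro h
        rw [hmem]
        intro j
        have := hi0' j
        linarith
    have hnn : ∀ i, 0 ≤ m - (c 0 * t i + c 1 * t i ^ 2 + c 2 * t i ^ 3 + c 3 * t i ^ 4) := by
      intro i
      have := hi0' i
      linarith
    have hlt : ∀ i j : Fin 7, i < j → t i < t j := fun i j h => ht h
    apply Finset.eq_univ_of_forall
    intro i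
    rw [hz i]
    rcases htri with h | h | h | h | h | h | h
    · exact alt_pos m (c 0) (c 1) (c 2) (c 3) (t 0) (t 2) (t 4) (t 1) (t 3) (t 5)
        (hlt _ _ (by decide)) (hlt _ _ (by decide)) (hlt _ _ (by decide)) (hlt _ _ (by decide))
        (hlt _ _ (by decide)) ((hz _).mp h.1) ((hz _).mp h.2.1) ((hz _).mp h.2.2) (hnn _) (hnn _)
        (hnn _) (t i)
    · exact alt_pos m (c 0) (c 1) (c 2) (c 3) (t 0) (t 2) (t 5) (t 1) (t 3) (t 6)
        (hlt _ _ (by decide)) (hlt _ _ (by decide)) (hlt _ _ (by decide)) (hlt _ _ (by decide))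
        (hlt _ _ (by decide)) ((hz _).mp h.1) ((hz _).mp h.2.1) ((hz _).mp h.2.2) (hnn _) (hnn _)
        (hnn _) (t i)
    · exact alt_pos m (c 0) (c 1) (c 2) (c 3) (t 0) (t 3) (t 5) (t 1) (t 4) (t 6)
        (hlt _ _ (by decide)) (hlt _ _ (by decide)) (hlt _ _ (by decide)) (hlt _ _ (by decide))
        (hlt _ _ (by decide)) ((hz _).mp h.1) ((hz _).mp h.2.1) ((hz _).mp h.2.2) (hnn _) (hnn _)
        (hnn _) (t i)
    · exact alt_pos m (c 0) (c 1) (c 2) (c 3) (t 1) (t 3) (t 5) (t 2) (t 4) (t 6)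
        (hlt _ _ (by decide)) (hlt _ _ (by decide)) (hlt _ _ (by decide)) (hlt _ _ (by decide))
        (hlt _ _ (by decide)) ((hz _).mp h.1) ((hz _).mp h.2.1) ((hz _).mp h.2.2) (hnn _) (hnn _)
        (hnn _) (t i)
    · exact alt_neg m (c 0) (c 1) (c 2) (c 3) (t 1) (t 3) (t 6) (t 0) (t 2) (t 4)
        (hlt _ _ (by decide)) (hlt _ _ (by decide)) (hlt _ _ (by decide)) (hlt _ _ (by decide))
        (hlt _ _ (by decide)) ((hz _).mp h.1) ((hz _).mp h.2.1) ((hz _).mp h.2.2) (hnn _) (hnn _)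
        (hnn _) (t i)
    · exact alt_neg m (c 0) (c 1) (c 2) (c 3) (t 1) (t 4) (t 6) (t 0) (t 2) (t 5)
        (hlt _ _ (by decide)) (hlt _ _ (by decide)) (hlt _ _ (by decide)) (hlt _ _ (by decide))
        (hlt _ _ (by decide)) ((hz _).mp h.1) ((hz _).mp h.2.1) ((hz _).mp h.2.2) (hnn _) (hnn _)
        (hnn _) (t i)
    · exact alt_neg m (c 0) (c 1) (c 2) (c 3) (t 2) (t 4) (t 6) (t 0) (t 3) (t 5)
        (hlt _ _ (by decide)) (hlt _ _ (by decide)) (hlt _ _ (by decide)) (hlt _ _ (by decide))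
        (hlt _ _ (by decide)) ((hz _).mp h.1) ((hz _).mp h.2.1) ((hz _).mp h.2.2) (hnn _) (hnn _)
        (hnn _) (t i)

/-- The sign of `t k - t a`. -/
def sg (a k : Fin 7) : ℤ := if a < k then 1 else -1

theorem sg_sq (a k : Fin 7) : ((sg a k : ℤ) : ℝ) * ((sg a k : ℤ) : ℝ) = 1 := by
  unfold sg
  split_ifs <;> norm_num

theorem sg_pos (t : Fin 7 → ℝ) (ht : StrictMono t) (a k : Fin 7) (h : a ≠ k) :
    0 < ((sg a k : ℤ) : ℝ) * (t k - t a) := by
  unfold sg
  split_ifs with hlt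
  · have := ht hlt
    push_cast
    linarith
  · have hlt' : k < a := lt_of_le_of_ne (not_lt.mp hlt) h.symm
    have := ht hlt'
    push_cast
    linarith

theorem eps_check : ∀ v : Fin 14, ∀ k : Fin 7, k ∉ fac v →
    eps v * sg (idx v 0) k * sg (idx v 1) k * sg (idx v 2) k * sg (idx v 3) k = 1 := by
  decide +kernel

/-- The quartic of a facet. -/
noncomputable def g (t : Fin 7 → ℝ) (v : Fin 14) (x : ℝ) : ℝ :=
  (eps v : ℝ) * ((x - t (idx v 0)) * (x - t (idx v 1)) * (x - t (idx v 2)) * (x - t (idx v 3)))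

theorem g_zero (t : Fin 7 → ℝ) (v : Fin 14) (k : Fin 7) (hk : k ∈ fac v) : g t v (t k) = 0 := by
  obtain ⟨j, rfl⟩ := (mem_fac v k).mp hk
  unfold g
  fin_cases j <;> simp

theorem g_pos (t : Fin 7 → ℝ) (ht : StrictMono t) (v : Fin 14) (k : Fin 7) (hk : k ∉ fac v) :
    0 < g t v (t k) := by
  have hne : ∀ j, idx v j ≠ k := by
    intro j h
    exact hk ((mem_fac v k).mpr ⟨j, h.symm⟩)
  have h0 := sg_pos t ht _ _ (hne 0)
  have h1 := sg_pos t ht _ _ (hne 1)
  have h2 := sg_pos t ht _ _ (hne 2)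
  have h3 := sg_pos t ht _ _ (hne 3)
  have q0 := sg_sq (idx v 0) k
  have q1 := sg_sq (idx v 1) k
  have q2 := sg_sq (idx v 2) k
  have q3 := sg_sq (idx v 3) k
  have hE : ((eps v : ℤ) : ℝ) * (sg (idx v 0) k : ℤ) * (sg (idx v 1) k : ℤ) *
      (sg (idx v 2) k : ℤ) * (sg (idx v 3) k : ℤ) = 1 := by
    exact_mod_cast eps_check v k hk
  have hprod := mul_pos (mul_pos (mul_pos h0 h1) h2) h3
  unfold g
  generalize ((sg (idx v 0) k : ℤ) : ℝ) = s0 at *
  generalize ((sg (idx v 1) k : ℤ) : ℝ) = s1 at *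
  generalize ((sg (idx v 2) k : ℤ) : ℝ) = s2 at *
  generalize ((sg (idx v 3) k : ℤ) : ℝ) = s3 at *
  generalize t k - t (idx v 0) = A at *
  generalize t k - t (idx v 1) = B at *
  generalize t k - t (idx v 2) = C at *
  generalize t k - t (idx v 3) = D at *
  have hid : ((eps v : ℤ) : ℝ) * (A * B * C * D)
      = ((eps v : ℤ) : ℝ) * s0 * s1 * s2 * s3 * (s0 * A * (s1 * B) * (s2 * C) * (s3 * D)) := by
    calc ((eps v : ℤ) : ℝ) * (A * B * C * D)
        = ((eps v : ℤ) : ℝ) * (A * B * C * D) * 1 * 1 * 1 * 1 := by ring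
      _ = ((eps v : ℤ) : ℝ) * (A * B * C * D) * (s0 * s0) * (s1 * s1) * (s2 * s2) * (s3 * s3) := by
          rw [q0, q1, q2, q3]
      _ = _ := by ring
  rw [hid, hE, one_mul]
  exact hprod

/-- Coefficients of the quartic of a facet. -/
noncomputable def gc (t : Fin 7 → ℝ) (v : Fin 14) : Fin 4 → ℝ :=
  ![(eps v : ℝ) * (-(t (idx v 0) * t (idx v 1) * t (idx v 2) + t (idx v 0) * t (idx v 1) * t (idx v 3)
      + t (idx v 0) * t (idx v 2) * t (idx v 3) + t (idx v 1) * t (idx v 2) * t (idx v 3))),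
    (eps v : ℝ) * (t (idx v 0) * t (idx v 1) + t (idx v 0) * t (idx v 2) + t (idx v 0) * t (idx v 3)
      + t (idx v 1) * t (idx v 2) + t (idx v 1) * t (idx v 3) + t (idx v 2) * t (idx v 3)),
    (eps v : ℝ) * (-(t (idx v 0) + t (idx v 1) + t (idx v 2) + t (idx v 3))),
    (eps v : ℝ)]

theorem g_lin (t : Fin 7 → ℝ) (v : Fin 14) (x : ℝ) :
    g t v x = lin (gc t v) (moment x)
      + (eps v : ℝ) * (t (idx v 0) * t (idx v 1) * t (idx v 2) * t (idx v 3)) := by
  rw [lin_moment]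
  simp only [g, gc, Matrix.cons_val]
  ring

theorem good_cyc (t : Fin 7 → ℝ) (ht : StrictMono t) (Z : Finset (Fin 7)) (hZ : Good Z) :
    FaceSet (fun i => moment (t i)) (Z : Set (Fin 7)) := by
  classical
  intro hne
  rcases hZ with rfl | hZ
  · refine ⟨0, ?_⟩
    ext i
    simp
  · let T : Finset (Fin 14) := Finset.univ.filter (fun v => Z ⊆ fac v)
    refine ⟨-∑ v ∈ T, lin (gc t v), ?_⟩
    have hL : ∀ x, (-∑ v ∈ T, lin (gc t v)) (moment x)
        = (∑ v ∈ T, (eps v : ℝ) * (t (idx v 0) * t (idx v 1) * t (idx v 2) * t (idx v 3)))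
          - ∑ v ∈ T, g t v x := by
      intro x
      simp only [g_lin, Finset.sum_add_distrib]
      rw [neg_apply, sum_apply]
      ring
    have hnn : ∀ i v, 0 ≤ g t v (t i) := by
      intro i v
      by_cases h : i ∈ fac v
      · exact (g_zero t v i h).ge
      · exact (g_pos t ht v i h).le
    have hsum0 : ∀ i, i ∈ Z → ∑ v ∈ T, g t v (t i) = 0 := by
      intro i hi
      apply Finset.sum_eq_zero
      intro v hv
      rw [Finset.mem_filter] at hv
      exact g_zero t v i (hv.2 hi)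
    ext i
    change i ∈ Z ↔ ∀ j, _ ≤ _
    simp only [hL]
    constructor
    · intro hi j
      rw [hsum0 i hi]
      have : 0 ≤ ∑ v ∈ T, g t v (t j) := Finset.sum_nonneg (fun v _ => hnn j v)
      linarith
    · intro h
      obtain ⟨i0, hi0⟩ := hne
      have h1 := h i0
      rw [hsum0 i0 hi0] at h1
      have h2 : ∑ v ∈ T, g t v (t i) = 0 :=
        le_antisymm (by linarith) (Finset.sum_nonneg (fun v _ => hnn i v))
      by_contra hcon
      obtain ⟨v, hv1, hv2⟩ := sep_check Z hZ i hcon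
      have h3 := (Finset.sum_eq_zero_iff_of_nonneg (fun v _ => hnn i v)).mp h2 v
        (by rw [Finset.mem_filter]; exact ⟨Finset.mem_univ _, hv1⟩)
      exact (g_pos t ht v i hv2).ne' h3

end Cyclic

/-! ### The result -/

open Classical in
/-- Faces of the cyclic polytope and faces of the explicit polytope. -/
noncomputable def midIso (t : Fin 7 → ℝ) (ht : StrictMono t) :
    {Z : Set (Fin 7) // FaceSet (fun i => moment (t i)) Z}ᵒᵈ ≃o {W : Set (Fin 14) // FaceSet Q W} :=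
  OrderIso.ofSurjective
    (OrderEmbedding.ofMapLEIff
      (fun Z => (⟨star (OrderDual.ofDual Z).1.toFinset, star_faceSet _ (cyc_good t ht _ (by
        rw [Set.coe_toFinset]; exact (OrderDual.ofDual Z).2))⟩ : {W : Set (Fin 14) // FaceSet Q W}))
      (by
        intro Z Z'
        change star (OrderDual.ofDual Z).1.toFinset ⊆ star (OrderDual.ofDual Z').1.toFinset ↔
          (OrderDual.ofDual Z').1 ⊆ (OrderDual.ofDual Z).1
        rw [star_le _ _ (cyc_good t ht _ (by
          rw [Set.coe_toFinset]; exact (OrderDual.ofDual Z).2)), Set.toFinset_subset_toFinset]))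
    (by
      rintro ⟨W, hW⟩
      obtain ⟨Z, hZ, hZW⟩ := faceSet_star W hW
      refine ⟨OrderDual.toDual ⟨(Z : Set (Fin 7)), good_cyc t ht Z hZ⟩, ?_⟩
      have hcoe : ∀ inst : Fintype (↑(Z : Set (Fin 7))),
          @Set.toFinset _ (Z : Set (Fin 7)) inst = Z := by
        intro inst
        ext x
        simp
      apply Subtype.ext
      refine Eq.trans ?_ hZW
      exact congrArg star (hcoe _))

/-- There is a polytope in four-dimensional Euclidean space whose face lattice is the face lattice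
of the cyclic polytope `C_4(7)` with the order reversed (for every choice of parameters), all of
whose vertices have rational coordinates and lie on a common sphere. -/
theorem result : ∃ P : Set E, IsPolytope P ∧
    (∀ t : Fin 7 → ℝ, StrictMono t →
      Nonempty (FaceLattice P ≃o (FaceLattice (cyclicPolytope t))ᵒᵈ)) ∧
    (∀ v ∈ P.extremePoints ℝ, ∀ i, ∃ q : ℚ, v i = (q : ℝ)) ∧
    (∃ (c : E) (r : ℝ), ∀ v ∈ P.extremePoints ℝ, dist v c = r) := by
  refine ⟨convexHull ℝ (Set.range Q), ⟨_, Set.finite_range Q, rfl⟩, ?_, ?_, ?_⟩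
  · intro t ht
    exact ⟨(faceIso Q).trans ((midIso t ht).symm.trans (faceIso (fun i => moment (t i))).dual.symm)⟩
  · intro v hv i
    obtain ⟨j, rfl⟩ := extremePoints_convexHull_subset hv
    exact ⟨(pt j i : ℚ), by rw [Q_apply]; push_cast; rfl⟩
  · refine ⟨0, 24570, ?_⟩
    intro v hv
    obtain ⟨j, rfl⟩ := extremePoints_convexHull_subset hv
    rw [dist_zero_right, EuclideanSpace.norm_eq, Fin.sum_univ_four]
    simp only [Q_apply, Real.norm_eq_abs, sq_abs]
    have h : ((pt j 0 : ℝ) ^ 2 + (pt j 1 : ℝ) ^ 2 + (pt j 2 : ℝ) ^ 2 + (pt j 3 : ℝ) ^ 2)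
        = (24570 : ℝ) ^ 2 := by
      exact_mod_cast norm_check j
    rw [h]
    exact Real.sqrt_sq (by norm_num)

end Pool.Agent.Results.MP_6ae079_co.RationalInscribed
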